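import Pool.Agent.W626.AH.Stm
import Pool.Agent.W293.AH.Lox
import Pool.Agent.W155.AH.Jd
import Pool.Agent.W585.AH.Exl
import Pool.Agent.W577.AH.One
import Pool.Agent.W320.AH.Hm
import Pool.Agent.W160.AH.HH
import Pool.Agent.W356.AH.Ret
import Pool.Agent.W557.AH.Geo
import Pool.Agent.W924.AH.ACT
import Pool.Agent.W918.AH.Vup
import Pool.Agent.W253.AH.Hac
import Pool.Agent.W409.AH.Vpa
import Pool.Agent.W308.AH.VPB
import Pool.Agent.W962.AH.Dat
import Pool.Agent.W103.AH.Sca
import Pool.Agent.W692.AH.Bac
import Pool.Agent.W63.AH.FG
import Pool.Agent.W359.AH.Clo
import Pool.Agent.W503.AH.Pro
import Pool.Agent.W683.AH.Fin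

/-!
# The set of acylindrically hyperbolic marked groups is Borel

A finitely generated group is acylindrically hyperbolic if it is not virtually cyclic and acts
isometrically and acylindrically, with an unbounded orbit, on a geodesic Gromov hyperbolic metric
space (`AcylindricallyHyperbolic`, Osin's definition). The set `AHset` of the marked groups with
this property is a Borel subset of the space of finitely generated marked groups: it is the
intersection of a Borel set (not virtually cyclic) with an `F_σ` set.

Idea: an action gives a norm on the free group, with values between `0` and the word length, whose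
distance satisfies the four point condition with constant `1`, an acylindricity condition at one
scale for the virtual points of the geodesics, and for which one element is loxodromic. For fixed
parameters these conditions are closed in the pair (normal subgroup, norm), and the norms vary in a
compact box, so the projection is closed. Conversely, such a norm gives an acylindrical action on
its injective hull, which is geodesic and hyperbolic.
-/

set_option autoImplicit false

namespace Pool.Agent.Results.MP_53fefd_al.AcylHypBorel

open Pool.Agent.H67R3.RHDefs Pool.Agent.W626.AH

/-- The set of acylindrically hyperbolic marked groups is a Borel subset of the space of finitely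
generated marked groups. -/
theorem result : @MeasurableSet MarkedGroups (borel MarkedGroups) AHset := by
  have hlox := Pool.Agent.W293.AH.Lox.main
  have hjd := Pool.Agent.W155.AH.Jd.main hlox
  have hexl := Pool.Agent.W585.AH.Exl.main hjd
  have hone := Pool.Agent.W577.AH.main
  have hhm := Pool.Agent.W320.AH.main
  have hhh := Pool.Agent.W160.AH.HH.main hhm
  have hret := Pool.Agent.W356.AHRet.main
  have hgeo := Pool.Agent.W557.AH.main hhm hret
  have hact := Pool.Agent.W924.AH.ACT.main hhm
  have hvup := Pool.Agent.W918.AH.main hhm hhh
  have hhac := Pool.Agent.W253.AH.main hhm hvup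
  have hdat := Pool.Agent.W962.AH.main Pool.Agent.W409.AH.Vpa.main Pool.Agent.W308.AHVPB.main hexl
  have hsca := Pool.Agent.W103.AH.main hdat
  have hbac := Pool.Agent.W692.AH.main hhm hhh hgeo hact hhac hone
  have hpro := Pool.Agent.W503.AH.Pro.main Pool.Agent.W359.AH.Clo.main
  exact Pool.Agent.W683.AH.main hsca hbac Pool.Agent.W63.AH.FG.main hpro

end Pool.Agent.Results.MP_53fefd_al.AcylHypBorel
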